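import Pool.Agent.Q260.KK.Spec

/-! Job KK-DIF of helper260: the Gaussian integral is differentiable. -/

set_option autoImplicit false

namespace Pool.Agent.Q285.KK

open Pool.Agent.Q260.KK
open MeasureTheory Filter Topology Set Complex

theorem rp (t : ℝ) (ht : 0 ≤ t) : t ^ (3 / 2 : ℝ) ≤ t ^ 2 / 64 + 262144 := by
  obtain ⟨s, hs0, hs⟩ : ∃ s : ℝ, 0 ≤ s ∧ t = s ^ 2 :=
    ⟨Real.sqrt t, Real.sqrt_nonneg t, (Real.sq_sqrt ht).symm⟩
  have h1 : t ^ (3 / 2 : ℝ) = s ^ 3 := by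
    rw [hs, ← Real.rpow_natCast s 2, ← Real.rpow_mul hs0, ← Real.rpow_natCast s 3]
    norm_num
  rw [h1, hs]
  rcases le_total 64 s with h | h
  · have h2 : 0 ≤ s ^ 3 := by positivity
    nlinarith
  · have h2 : s ^ 3 ≤ 64 ^ 3 := pow_le_pow_left₀ hs0 h 3
    have h3 : 0 ≤ (s ^ 2) ^ 2 / 64 := by positivity
    norm_num at h2
    linarith

theorem grow (f : ℂ → ℂ) (hf : Differentiable ℂ f)
    (h : ∃ R : ℝ, ∀ z : ℂ, R ≤ ‖z‖ → ‖f z‖ ≤ Real.exp (‖z‖ ^ (3 / 2 : ℝ))) :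
    ∃ K : ℝ, 0 ≤ K ∧ ∀ w, ‖f w‖ ≤ K * Real.exp (‖w‖ ^ 2 / 64) := by
  obtain ⟨R, hR⟩ := h
  obtain ⟨D, hD⟩ := (isCompact_closedBall (0 : ℂ) R).exists_bound_of_continuousOn
    hf.continuous.continuousOn
  have hE : 0 < Real.exp 262144 := Real.exp_pos _
  refine ⟨|D| + Real.exp 262144, by positivity, fun w => ?_⟩
  have h1 : 1 ≤ Real.exp (‖w‖ ^ 2 / 64) := Real.one_le_exp (by positivity)
  rcases le_total ‖w‖ R with hw | hw
  · have h2 := hD w (mem_closedBall_zero_iff.2 hw)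
    have h3 : D ≤ |D| + Real.exp 262144 := by linarith [le_abs_self D]
    have h4 : 0 ≤ |D| + Real.exp 262144 := by positivity
    calc ‖f w‖ ≤ |D| + Real.exp 262144 := h2.trans h3
      _ ≤ (|D| + Real.exp 262144) * Real.exp (‖w‖ ^ 2 / 64) := le_mul_of_one_le_right h4 h1
  · calc ‖f w‖ ≤ Real.exp (‖w‖ ^ (3 / 2 : ℝ)) := hR w hw
      _ ≤ Real.exp (‖w‖ ^ 2 / 64 + 262144) := Real.exp_le_exp.2 (rp _ (norm_nonneg w))
      _ = Real.exp 262144 * Real.exp (‖w‖ ^ 2 / 64) := by rw [Real.exp_add, mul_comm]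
      _ ≤ (|D| + Real.exp 262144) * Real.exp (‖w‖ ^ 2 / 64) :=
        mul_le_mul_of_nonneg_right (by linarith [abs_nonneg D]) (Real.exp_pos _).le

theorem growd (f : ℂ → ℂ) (hf : Differentiable ℂ f) (K : ℝ)
    (h : ∀ w, ‖f w‖ ≤ K * Real.exp (‖w‖ ^ 2 / 64)) (hK : 0 ≤ K) (w : ℂ) :
    ‖deriv f w‖ ≤ K * Real.exp ((‖w‖ + 1) ^ 2 / 64) := by
  have h1 := Complex.norm_deriv_le_of_forall_mem_sphere_norm_le (c := w) (R := 1)
    (C := K * Real.exp ((‖w‖ + 1) ^ 2 / 64)) (f := f) one_pos hf.diffContOnCl ?_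
  · rwa [div_one] at h1
  · intro z hz
    refine (h z).trans (mul_le_mul_of_nonneg_left (Real.exp_le_exp.2 ?_) hK)
    have h2 : ‖z‖ ≤ ‖w‖ + 1 := by
      have h3 : ‖z - w‖ = 1 := by rwa [mem_sphere_iff_norm] at hz
      have h4 := norm_add_le (z - w) w
      rw [sub_add_cancel] at h4
      linarith
    have h5 : ‖z‖ ^ 2 ≤ (‖w‖ + 1) ^ 2 := pow_le_pow_left₀ (norm_nonneg z) h2 2
    linarith

theorem nm (z : ℂ) (y : ℝ) : ‖z + y * I‖ ≤ ‖z‖ + |y| := by
  refine (norm_add_le _ _).trans (le_of_eq ?_)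
  rw [norm_mul, norm_I, mul_one, Complex.norm_real, Real.norm_eq_abs]

/-- the majorant -/
theorem mjr (r y t : ℝ) (ht0 : 0 ≤ t) (ht : t ≤ r + |y|) :
    Real.exp (-(y ^ 2 / 4)) * Real.exp (t ^ 2 / 64) ≤
      Real.exp (r ^ 2 / 32) * Real.exp (-(7 / 32) * y ^ 2) := by
  rw [← Real.exp_add, ← Real.exp_add, Real.exp_le_exp]
  have h1 : t ^ 2 ≤ (r + |y|) ^ 2 := pow_le_pow_left₀ ht0 ht 2
  have h2 : (r + |y|) ^ 2 ≤ 2 * r ^ 2 + 2 * y ^ 2 := by
    have h3 := sq_nonneg (r - |y|)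
    have h4 := sq_abs y
    nlinarith
  linarith

theorem t_DIF : S_DIF := by
  intro f hf hg
  obtain ⟨K, hK, hb⟩ := grow f hf hg
  have hd := growd f hf K hb hK
  have hcd : Continuous (deriv f) := (hf.contDiff (n := 1)).continuous_deriv le_rfl
  intro z₀
  set r : ℝ := ‖z₀‖ + 2 with hr
  set bound : ℝ → ℝ := fun y => K * (Real.exp (r ^ 2 / 32) * Real.exp (-(7 / 32) * y ^ 2))
    with hbound
  have hbi : Integrable bound := by
    refine Integrable.const_mul (Integrable.const_mul ?_ _) _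
    exact integrable_exp_neg_mul_sq (by norm_num)
  have hcF : ∀ z : ℂ, Continuous fun y : ℝ => ((Real.exp (-(y ^ 2 / 4)) : ℝ) : ℂ) *
      f (z + y * I) := by
    intro z
    have := hf.continuous
    fun_prop
  have hcF' : ∀ z : ℂ, Continuous fun y : ℝ => ((Real.exp (-(y ^ 2 / 4)) : ℝ) : ℂ) *
      deriv f (z + y * I) := by
    intro z
    fun_prop
  have key := hasDerivAt_integral_of_dominated_loc_of_deriv_le (μ := volume) (𝕜 := ℂ)
    (F := fun z (y : ℝ) => ((Real.exp (-(y ^ 2 / 4)) : ℝ) : ℂ) * f (z + y * I))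
    (F' := fun z (y : ℝ) => ((Real.exp (-(y ^ 2 / 4)) : ℝ) : ℂ) * deriv f (z + y * I))
    (x₀ := z₀) (s := Metric.ball z₀ 1) (bound := bound) (Metric.ball_mem_nhds z₀ one_pos)
    (Eventually.of_forall fun z => (hcF z).aestronglyMeasurable) ?_
    (hcF' z₀).aestronglyMeasurable ?_ hbi ?_
  · exact key.2.differentiableAt
  · refine hbi.mono' (hcF z₀).aestronglyMeasurable (Eventually.of_forall fun y => ?_)
    rw [norm_mul, Complex.norm_real, Real.norm_of_nonneg (Real.exp_pos _).le]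
    have h1 := mul_le_mul_of_nonneg_left (hb (z₀ + y * I)) (Real.exp_pos (-(y ^ 2 / 4))).le
    have h2 := mjr r y ‖z₀ + y * I‖ (norm_nonneg _) ((nm z₀ y).trans (by linarith))
    have h3 := mul_le_mul_of_nonneg_left h2 hK
    calc _ ≤ _ := h1
      _ = K * (Real.exp (-(y ^ 2 / 4)) * Real.exp (‖z₀ + y * I‖ ^ 2 / 64)) := by ring
      _ ≤ _ := h3
  · refine Eventually.of_forall fun y z hz => ?_
    rw [norm_mul, Complex.norm_real, Real.norm_of_nonneg (Real.exp_pos _).le]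
    have h1 := mul_le_mul_of_nonneg_left (hd (z + y * I)) (Real.exp_pos (-(y ^ 2 / 4))).le
    have h4 : ‖z‖ ≤ ‖z₀‖ + 1 := by
      have h5 : ‖z - z₀‖ < 1 := mem_ball_iff_norm.1 hz
      have h6 := norm_add_le (z - z₀) z₀
      rw [sub_add_cancel] at h6
      linarith
    have h2 := mjr r y (‖z + y * I‖ + 1) (by positivity) (by
      have := nm z y
      linarith)
    have h3 := mul_le_mul_of_nonneg_left h2 hK
    calc _ ≤ _ := h1
      _ = K * (Real.exp (-(y ^ 2 / 4)) * Real.exp ((‖z + y * I‖ + 1) ^ 2 / 64)) := by ring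
      _ ≤ _ := h3
  · refine Eventually.of_forall fun y z _ => ?_
    have h1 : HasDerivAt f (deriv f (z + y * I)) (z + y * I) := (hf _).hasDerivAt
    have h2 : HasDerivAt (fun z : ℂ => z + y * I) 1 z := (hasDerivAt_id z).add_const _
    have h3 := h1.comp z h2
    rw [mul_one] at h3
    exact h3.const_mul _

end Pool.Agent.Q285.KK
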