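import Pool.Agent.Q285.KK.PR

/-! Job KK-LO of helper260: maximal type. -/

set_option autoImplicit false

namespace Pool.Agent.Q285.KK

open Pool.Agent.Q260.KK
open MeasureTheory Filter Topology Set Complex

theorem xn_ge (n : ℕ) : (4 : ℝ) ≤ (xn n : ℝ) := by
  have h1 : 2 ≤ rn n := by
    unfold rn
    calc 2 = 2 ^ 1 := rfl
      _ ≤ 2 ^ 4 ^ (n + 1) := Nat.pow_le_pow_right (by norm_num) (Nat.one_le_pow _ _ (by norm_num))
  have h2 : 4 ≤ xn n := by
    unfold xn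
    nlinarith
  exact_mod_cast h2

/-- on the imaginary axis the quadratic factors are at least one -/
theorem qf_imag (n : ℕ) (y : ℝ) : 1 ≤ ‖qf n ((y : ℂ) * I)‖ := by
  set x : ℝ := (xn n : ℝ) with hx
  have hx4 : 4 ≤ x := xn_ge n
  have h1 : qf n ((y : ℂ) * I) =
      ((((x ^ 2 + 4 - y ^ 2) ^ 2 + 4 * x ^ 2 * y ^ 2) / (x ^ 2 + 4) ^ 2 : ℝ) : ℂ) := by
    unfold qf
    have h2 : (xn n : ℂ) = (x : ℂ) := by
      rw [hx]
      push_cast
      rfl
    rw [h2]
    push_cast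
    congr 1
    have h3 : (I : ℂ) ^ 2 = -1 := I_sq
    have h4 : (I : ℂ) ^ 4 = 1 := by
      rw [show (4 : ℕ) = 2 * 2 by norm_num, pow_mul, I_sq]
      norm_num
    ring_nf
    rw [h4, h3]
    ring
  rw [h1, Complex.norm_real, Real.norm_of_nonneg (by positivity), le_div_iff₀ (by positivity),
    one_mul]
  nlinarith [sq_nonneg (y ^ 2), mul_nonneg (sq_nonneg y) (by nlinarith : 0 ≤ 2 * x ^ 2 - 8)]

theorem pw_imag (n : ℕ) (y : ℝ) : ‖(1 - ((y : ℂ) * I) ^ 2 / (rn n : ℂ) ^ 2) ^ (mn n)‖ =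
    (1 + y ^ 2 / (rn n : ℝ) ^ 2) ^ (mn n) := by
  have h1 : (1 - ((y : ℂ) * I) ^ 2 / (rn n : ℂ) ^ 2) =
      ((1 + y ^ 2 / (rn n : ℝ) ^ 2 : ℝ) : ℂ) := by
    push_cast
    rw [mul_pow, I_sq]
    ring
  rw [norm_pow, h1, Complex.norm_real, Real.norm_of_nonneg (by positivity)]

theorem fac_imag (n : ℕ) (y : ℝ) : 1 ≤ ‖fac n ((y : ℂ) * I)‖ := by
  unfold fac
  rw [norm_mul, pw_imag]
  refine one_le_mul_of_one_le_of_one_le (one_le_pow₀ ?_) (qf_imag n y)
  have : 0 ≤ y ^ 2 / (rn n : ℝ) ^ 2 := by positivity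
  linarith

theorem ff_ge (k : ℕ) (y : ℝ) : ‖fac k ((y : ℂ) * I)‖ ≤ ‖ff ((y : ℂ) * I)‖ := by
  have h1 := (mult ((y : ℂ) * I)).hasProd.tendsto_prod_nat.norm
  refine ge_of_tendsto h1 ?_
  filter_upwards [eventually_gt_atTop k] with N hN
  rw [norm_prod, ← Finset.mul_prod_erase _ _ (Finset.mem_range.2 hN)]
  refine le_mul_of_one_le_right (norm_nonneg _) ?_
  exact Finset.prod_induction _ (fun x : ℝ => 1 ≤ x)
    (fun a b ha hb => one_le_mul_of_one_le_of_one_le ha hb) le_rfl (fun i _ => fac_imag i y)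

theorem t_LO : S_LO := by
  intro C R
  obtain ⟨k, hk⟩ := exists_nat_gt (max (C / Real.log 2) R)
  have hr1 : (1 : ℝ) ≤ rn k := by exact_mod_cast rn_pos k
  have hr : (0 : ℝ) < rn k := by linarith
  refine ⟨((rn k : ℝ) : ℂ) * I, ?_, ?_⟩
  · rw [norm_mul, norm_I, mul_one, Complex.norm_real, Real.norm_of_nonneg hr.le]
    have h1 : (k : ℝ) ≤ rn k := by
      have h2 := rn_ge' k
      have h3 : k ≤ (k + 3) * 2 ^ (k + 2) := by
        have := Nat.one_le_two_pow (n := k + 2)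
        nlinarith
      exact_mod_cast h3.trans h2
    exact ((le_max_right _ _).trans hk.le).trans h1
  · rw [norm_mul, norm_I, mul_one, Complex.norm_real, Real.norm_of_nonneg hr.le]
    refine lt_of_lt_of_le ?_ (ff_ge k (rn k : ℝ))
    unfold fac
    rw [norm_mul, pw_imag, div_self (by positivity)]
    have h2 : (1 + 1 : ℝ) ^ mn k = Real.exp (mn k * Real.log 2) := by
      rw [mul_comm, Real.exp_mul, Real.exp_log (by norm_num), Real.rpow_natCast]
      norm_num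
    rw [h2]
    have h3 := qf_imag k (rn k : ℝ)
    refine lt_of_lt_of_le ?_ (le_mul_of_one_le_right (Real.exp_pos _).le h3)
    rw [Real.exp_lt_exp]
    unfold mn
    push_cast
    have h4 : C / Real.log 2 < k := lt_of_le_of_lt (le_max_left _ _) hk
    have hl : 0 < Real.log 2 := Real.log_pos (by norm_num)
    rw [div_lt_iff₀ hl] at h4
    nlinarith [mul_pos hl hr]

end Pool.Agent.Q285.KK
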