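import Pool.Agent.Q260.KK.Spec

/-! Job KK-PR of helper260: the infinite product. -/

set_option autoImplicit false

namespace Pool.Agent.Q285.KK

open Pool.Agent.Q260.KK
open MeasureTheory Filter Topology Set Complex

theorem exp_ge (n : ℕ) : 2 * n + 4 ≤ 4 ^ (n + 1) := by
  induction n with
  | zero => norm_num
  | succ k ih =>
    rw [pow_succ]
    omega

theorem rn_ge (n : ℕ) : 4 ^ (n + 2) ≤ rn n := by
  unfold rn
  rw [show (4 : ℕ) = 2 ^ 2 by norm_num, ← pow_mul, ← pow_mul]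
  refine Nat.pow_le_pow_right (by norm_num) ?_
  have h := exp_ge n
  rw [show (4 : ℕ) = 2 ^ 2 by norm_num, ← pow_mul] at h
  omega

theorem two_ge (n : ℕ) : n + 3 ≤ 2 ^ (n + 2) := by
  induction n with
  | zero => norm_num
  | succ k ih =>
    rw [show k + 1 + 2 = (k + 2) + 1 by ring, pow_succ]
    omega

theorem rn_ge' (n : ℕ) : (n + 3) * 2 ^ (n + 2) ≤ rn n := by
  refine le_trans ?_ (rn_ge n)
  rw [show (4 : ℕ) = 2 * 2 by norm_num, mul_pow]
  exact Nat.mul_le_mul_right _ (two_ge n)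

theorem rn_pos (n : ℕ) : 0 < rn n := by
  unfold rn
  positivity

/-- the quadratic factors -/
theorem qf_eq (n : ℕ) (z : ℂ) : qf n z =
    1 + (z ^ 2 * (8 - 2 * (xn n : ℂ) ^ 2) + z ^ 4) / ((xn n : ℂ) ^ 2 + 4) ^ 2 := by
  have h : ((xn n : ℂ) ^ 2 + 4) ≠ 0 := by
    have h1 : ((xn n : ℂ) ^ 2 + 4) = (((xn n : ℝ) ^ 2 + 4 : ℝ) : ℂ) := by push_cast; ring
    rw [h1, Complex.ofReal_ne_zero]
    positivity
  unfold qf
  field_simp
  ring

theorem qf_bd (n : ℕ) (z : ℂ) :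
    ‖(z ^ 2 * (8 - 2 * (xn n : ℂ) ^ 2) + z ^ 4) / ((xn n : ℂ) ^ 2 + 4) ^ 2‖ ≤
      2 * (‖z‖ ^ 2 + ‖z‖ ^ 4) / (xn n : ℝ) := by
  set x : ℝ := (xn n : ℝ) with hx
  have hx1 : 1 ≤ x := by
    rw [hx]
    have : 0 < xn n := by
      unfold xn
      exact pow_pos (rn_pos n) 2
    exact_mod_cast this
  have h1 : ((xn n : ℂ) ^ 2 + 4) = ((x ^ 2 + 4 : ℝ) : ℂ) := by
    rw [hx]
    push_cast
    ring
  have h2 : ‖((xn n : ℂ) ^ 2 + 4) ^ 2‖ = (x ^ 2 + 4) ^ 2 := by
    rw [norm_pow, h1, Complex.norm_real, Real.norm_of_nonneg (by positivity)]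
  have h3 : ‖(8 - 2 * (xn n : ℂ) ^ 2)‖ ≤ 2 * (x ^ 2 + 4) := by
    refine (norm_sub_le _ _).trans (le_of_eq ?_)
    rw [norm_mul, norm_pow, Complex.norm_natCast, ← hx]
    norm_num
    ring
  rw [norm_div, h2]
  have h4 : ‖z ^ 2 * (8 - 2 * (xn n : ℂ) ^ 2) + z ^ 4‖ ≤
      2 * (‖z‖ ^ 2 + ‖z‖ ^ 4) * (x ^ 2 + 4) := by
    refine (norm_add_le _ _).trans ?_
    rw [norm_mul, norm_pow, norm_pow]
    have h5 := mul_le_mul_of_nonneg_left h3 (sq_nonneg ‖z‖)
    have h6 : 0 ≤ ‖z‖ ^ 4 := by positivity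
    have h7 : 0 ≤ ‖z‖ ^ 4 * x ^ 2 := by positivity
    nlinarith
  refine (div_le_div_of_nonneg_right h4 (by positivity)).trans ?_
  rw [div_le_div_iff₀ (by positivity) (by positivity)]
  have h8 : x ≤ x ^ 2 + 4 := by nlinarith
  have h9 : 0 ≤ 2 * (‖z‖ ^ 2 + ‖z‖ ^ 4) * (x ^ 2 + 4) := by positivity
  calc 2 * (‖z‖ ^ 2 + ‖z‖ ^ 4) * (x ^ 2 + 4) * x
      ≤ 2 * (‖z‖ ^ 2 + ‖z‖ ^ 4) * (x ^ 2 + 4) * (x ^ 2 + 4) := mul_le_mul_of_nonneg_left h8 h9
    _ = 2 * (‖z‖ ^ 2 + ‖z‖ ^ 4) * (x ^ 2 + 4) ^ 2 := by ring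

theorem pow_bd (w : ℂ) (m : ℕ) : ‖(1 + w) ^ m - 1‖ ≤ Real.exp (m * ‖w‖) - 1 := by
  have h := Finset.norm_prod_one_add_sub_one_le (Finset.range m) (fun _ => w)
  rw [Finset.prod_const, Finset.sum_const, Finset.card_range, nsmul_eq_mul] at h
  exact h

theorem mul_bd (a b : ℂ) (s t : ℝ) (ha : ‖a - 1‖ ≤ Real.exp s - 1) (hb : ‖b‖ ≤ t) :
    ‖a * (1 + b) - 1‖ ≤ Real.exp (s + t) - 1 := by
  have h1 : ‖a‖ ≤ Real.exp s := by
    have h := norm_add_le (a - 1) 1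
    rw [sub_add_cancel, norm_one] at h
    linarith
  have h2 : a * (1 + b) - 1 = (a - 1) + a * b := by ring
  rw [h2, Real.exp_add]
  refine (norm_add_le _ _).trans ?_
  rw [norm_mul]
  have h3 : ‖a‖ * ‖b‖ ≤ Real.exp s * t :=
    mul_le_mul h1 hb (norm_nonneg _) (Real.exp_pos s).le
  have h4 : Real.exp s * (1 + t) ≤ Real.exp s * Real.exp t :=
    mul_le_mul_of_nonneg_left (by linarith [Real.add_one_le_exp t]) (Real.exp_pos s).le
  linarith

theorem fac_bd (n : ℕ) (z : ℂ) (B : ℝ) (hB : ‖z‖ ^ 2 + ‖z‖ ^ 4 ≤ B) :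
    ‖fac n z - 1‖ ≤ B * Real.exp B * (1 / 2) ^ n := by
  have hB0 : 0 ≤ B := le_trans (by positivity) hB
  have hr : (0 : ℝ) < rn n := by exact_mod_cast rn_pos n
  have hx : (xn n : ℝ) = (rn n : ℝ) ^ 2 := by
    unfold xn
    push_cast
    rfl
  have h1 := pow_bd (-(z ^ 2 / (rn n : ℂ) ^ 2)) (mn n)
  rw [← sub_eq_add_neg, norm_neg, norm_div, norm_pow, norm_pow, Complex.norm_natCast] at h1
  have h2 := mul_bd _ _ _ _ h1 (qf_bd n z)
  rw [← qf_eq n z] at h2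
  have h3 : fac n z = (1 - z ^ 2 / (rn n : ℂ) ^ 2) ^ (mn n) * qf n z := rfl
  rw [← h3] at h2
  set t : ℝ := (mn n : ℝ) * (‖z‖ ^ 2 / (rn n : ℝ) ^ 2) + 2 * (‖z‖ ^ 2 + ‖z‖ ^ 4) / (xn n : ℝ) with ht
  have hr1 : (1 : ℝ) ≤ rn n := by exact_mod_cast rn_pos n
  have h4 : t ≤ B * (n + 3) / rn n := by
    rw [ht]
    have e1 : (mn n : ℝ) * (‖z‖ ^ 2 / (rn n : ℝ) ^ 2) = (n + 1) * ‖z‖ ^ 2 / rn n := by
      unfold mn
      push_cast
      field_simp
    rw [e1, hx]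
    have e2 : 2 * (‖z‖ ^ 2 + ‖z‖ ^ 4) / (rn n : ℝ) ^ 2 ≤ 2 * B / rn n := by
      rw [div_le_div_iff₀ (by positivity) hr]
      have e3 : (rn n : ℝ) ≤ (rn n : ℝ) ^ 2 := by nlinarith
      have e4 : 2 * (‖z‖ ^ 2 + ‖z‖ ^ 4) ≤ 2 * B := by linarith
      exact mul_le_mul e4 e3 hr.le (by linarith)
    have e5 : (n + 1) * ‖z‖ ^ 2 / (rn n : ℝ) ≤ (n + 1) * B / rn n := by
      refine div_le_div_of_nonneg_right ?_ hr.le
      refine mul_le_mul_of_nonneg_left ?_ (by positivity)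
      have : 0 ≤ ‖z‖ ^ 4 := by positivity
      linarith
    calc _ ≤ (n + 1) * B / rn n + 2 * B / rn n := add_le_add e5 e2
      _ = B * (n + 3) / rn n := by ring
  have h5 : B * (n + 3) / rn n ≤ B * (1 / 2) ^ n := by
    rw [mul_div_assoc]
    refine mul_le_mul_of_nonneg_left ?_ hB0
    rw [div_le_iff₀ hr, one_div, inv_pow, inv_mul_eq_div, le_div_iff₀ (by positivity)]
    have e1 : (((n + 3) * 2 ^ (n + 2) : ℕ) : ℝ) ≤ (rn n : ℝ) := Nat.cast_le.2 (rn_ge' n)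
    push_cast at e1
    refine le_trans ?_ e1
    refine mul_le_mul_of_nonneg_left ?_ (by positivity)
    exact pow_le_pow_right₀ (by norm_num) (by omega)
  have h6 : t ≤ B * (1 / 2) ^ n := h4.trans h5
  have h7 : B * (1 / 2 : ℝ) ^ n ≤ B := by
    refine mul_le_of_le_one_right hB0 ?_
    exact pow_le_one₀ (by norm_num) (by norm_num)
  set s : ℝ := B * (1 / 2 : ℝ) ^ n with hs
  have hs0 : 0 ≤ s := by positivity
  have h8 : Real.exp t - 1 ≤ s * Real.exp s := by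
    have e1 : Real.exp t ≤ Real.exp s := Real.exp_le_exp.2 h6
    have e2 := Real.add_one_le_exp (-s)
    have e3 : (-s + 1) * Real.exp s ≤ Real.exp (-s) * Real.exp s :=
      mul_le_mul_of_nonneg_right e2 (Real.exp_pos s).le
    rw [← Real.exp_add, neg_add_cancel, Real.exp_zero] at e3
    nlinarith
  have h9 : s * Real.exp s ≤ s * Real.exp B :=
    mul_le_mul_of_nonneg_left (Real.exp_le_exp.2 h7) hs0
  calc ‖fac n z - 1‖ ≤ Real.exp t - 1 := h2
    _ ≤ s * Real.exp s := h8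
    _ ≤ s * Real.exp B := h9
    _ = B * Real.exp B * (1 / 2) ^ n := by rw [hs]; ring

theorem sum_bd (B : ℝ) : Summable fun n : ℕ => B * Real.exp B * (1 / 2 : ℝ) ^ n :=
  (summable_geometric_of_lt_one (by norm_num) (by norm_num)).mul_left _

theorem summ (z : ℂ) : Summable fun n => ‖fac n z - 1‖ :=
  Summable.of_nonneg_of_le (fun n => norm_nonneg _) (fun n => fac_bd n z _ le_rfl) (sum_bd _)

theorem fac_eq (z : ℂ) : (fun n => 1 + (fac n z - 1)) = fun n => fac n z := by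
  funext n
  ring

theorem mult (z : ℂ) : Multipliable fun n => fac n z := by
  have h := multipliable_one_add_of_summable (summ z)
  rwa [fac_eq z] at h

theorem fac_diff (n : ℕ) : Differentiable ℂ (fac n) := by
  unfold fac qf
  fun_prop

theorem ff_diff : Differentiable ℂ ff := by
  intro z
  set r : ℝ := ‖z‖ + 1 with hr
  have hr0 : 0 ≤ r := by positivity
  have h1 : HasProdLocallyUniformlyOn (fun n z => 1 + (fac n z - 1))
      (fun z => ∏' n, (1 + (fac n z - 1))) (Metric.ball (0 : ℂ) r) := by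
    refine Summable.hasProdLocallyUniformlyOn_nat_one_add Metric.isOpen_ball
      (sum_bd (r ^ 2 + r ^ 4)) ?_ ?_
    · refine Eventually.of_forall fun _ w hw => fac_bd _ w _ ?_
      have hw1 : ‖w‖ ≤ r := (mem_ball_zero_iff.1 hw).le
      gcongr
    · intro n
      exact ((fac_diff n).continuous.sub continuous_const).continuousOn
  have h2 := h1.tendstoLocallyUniformlyOn_finsetRange
  have h3 : DifferentiableOn ℂ (fun z => ∏' n, (1 + (fac n z - 1))) (Metric.ball (0 : ℂ) r) := by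
    refine h2.differentiableOn (Eventually.of_forall fun N => ?_) Metric.isOpen_ball
    refine Differentiable.differentiableOn ?_
    have := fac_diff
    fun_prop
  have h4 : ff = fun z => ∏' n, (1 + (fac n z - 1)) := by
    funext w
    rw [fac_eq w]
    rfl
  rw [h4]
  refine h3.differentiableAt (Metric.isOpen_ball.mem_nhds ?_)
  rw [mem_ball_zero_iff]
  linarith

/-- conjugation -/
theorem fac_conj (n : ℕ) (z : ℂ) :
    (starRingEnd ℂ) (fac n z) = fac n ((starRingEnd ℂ) z) := by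
  unfold fac qf
  simp only [map_mul, map_pow, map_sub, map_add, map_div₀, map_one, map_natCast, map_ofNat]

theorem ff_real (x : ℝ) : (ff (x : ℂ)).im = 0 := by
  have h1 := (mult (x : ℂ)).hasProd.tendsto_prod_nat
  have h2 : ∀ N : ℕ, (∏ i ∈ Finset.range N, fac i (x : ℂ)).im = 0 := by
    intro N
    rw [← Complex.conj_eq_iff_im, map_prod]
    refine Finset.prod_congr rfl fun i _ => ?_
    rw [fac_conj, Complex.conj_ofReal]
  have h3 := (Complex.continuous_im.tendsto _).comp h1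
  have h4 : Complex.im ∘ (fun N => ∏ i ∈ Finset.range N, fac i (x : ℂ)) = fun _ => 0 := by
    funext N
    exact h2 N
  rw [h4] at h3
  exact (tendsto_nhds_unique h3 tendsto_const_nhds)

theorem fac_even (n : ℕ) (z : ℂ) : fac n (-z) = fac n z := by
  unfold fac qf
  ring

theorem t_PR : S_PR := by
  refine ⟨mult, ff_diff, ff_real, ?_, ?_⟩
  · intro z
    unfold ff
    exact tprod_congr fun n => fac_even n z
  · intro z hz
    by_contra hne
    push Not at hne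
    have h1 : ∀ n, 1 + (fac n z - 1) ≠ 0 := by
      intro n
      rw [add_sub_cancel]
      exact hne n
    have h2 := tprod_one_add_ne_zero_of_summable h1 (summ z)
    rw [fac_eq z] at h2
    exact h2 hz

end Pool.Agent.Q285.KK
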